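import Mathlib

/-! Block W: Weil numbers, Kronecker. -/

set_option autoImplicit false
set_option linter.unusedSectionVars false

namespace Pool.Agent.FT

open Module Finset

section weil

/-- z is a p-Weil number of weight 1. -/
def IsWeil (p : ℕ) (z : AlgebraicClosure ℚ) : Prop :=
  IsIntegral ℤ z ∧ ∀ τ : AlgebraicClosure ℚ →+* ℂ, ‖τ z‖ ^ 2 = p

/-- w is an additive valuation over p. -/
structure IsVal (p : ℕ) (w : AlgebraicClosure ℚ → ℚ) : Prop where
  mul : ∀ x y, x ≠ 0 → y ≠ 0 → w (x * y) = w x + w y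
  add : ∀ x y, x ≠ 0 → y ≠ 0 → x + y ≠ 0 → min (w x) (w y) ≤ w (x + y)
  pos : 0 < w p

theorem isAlgebraic_closure : Algebra.IsAlgebraic ℚ (AlgebraicClosure ℚ) := by
  have h := AlgebraicClosure.isAlgebraic ℚ
  have e : (AlgebraicClosure.instAlgebra ℚ : Algebra ℚ (AlgebraicClosure ℚ)) =
    DivisionRing.toRatAlgebra := Subsingleton.elim _ _
  rw [e] at h
  exact h

attribute [local instance] isAlgebraic_closure

theorem normal_closure : Normal ℚ (AlgebraicClosure ℚ) where
  splits' _ := IsAlgClosed.splits _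

attribute [local instance] normal_closure

namespace IsVal

variable {p : ℕ} {w : AlgebraicClosure ℚ → ℚ} (hw : IsVal p w)

include hw

theorem one : w 1 = 0 := by
  have := hw.mul 1 1 one_ne_zero one_ne_zero
  rw [mul_one] at this
  linarith

theorem negone : w (-1) = 0 := by
  have := hw.mul (-1) (-1) (by norm_num) (by norm_num)
  rw [neg_mul_neg, mul_one, hw.one] at this
  linarith

theorem neg (x : AlgebraicClosure ℚ) (hx : x ≠ 0) : w (-x) = w x := by
  have := hw.mul (-1) x (by norm_num) hx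
  rw [hw.negone, neg_one_mul, zero_add] at this
  exact this

theorem inv (x : AlgebraicClosure ℚ) (hx : x ≠ 0) : w x⁻¹ = - w x := by
  have := hw.mul x x⁻¹ hx (inv_ne_zero hx)
  rw [mul_inv_cancel₀ hx, hw.one] at this
  linarith

theorem pow (x : AlgebraicClosure ℚ) (hx : x ≠ 0) (n : ℕ) : w (x ^ n) = n * w x := by
  induction n with
  | zero => simp [hw.one]
  | succ n ih =>
    rw [pow_succ, hw.mul _ _ (pow_ne_zero _ hx) hx, ih]
    push_cast
    ring

theorem zpow (x : AlgebraicClosure ℚ) (hx : x ≠ 0) (n : ℤ) : w (x ^ n) = n * w x := by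
  cases n with
  | ofNat n => simpa using hw.pow x hx n
  | negSucc n =>
    rw [zpow_negSucc, hw.inv _ (pow_ne_zero _ hx), hw.pow x hx]
    push_cast
    ring

theorem prod {ι : Type*} (s : Finset ι) (f : ι → AlgebraicClosure ℚ) (hf : ∀ i, f i ≠ 0) :
    w (∏ i ∈ s, f i) = ∑ i ∈ s, w (f i) := by
  classical
  induction s using Finset.induction_on with
  | empty => simp [hw.one]
  | insert a s ha ih =>
    rw [prod_insert ha, sum_insert ha, hw.mul _ _ (hf a) (prod_ne_zero_iff.2 fun i _ => hf i), ih]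

/-- The valuation ring. -/
def ring : Subring (AlgebraicClosure ℚ) where
  carrier := {x | x = 0 ∨ 0 ≤ w x}
  mul_mem' := by
    rintro x y hx hy
    by_cases hx0 : x = 0
    · left; simp [hx0]
    by_cases hy0 : y = 0
    · left; simp [hy0]
    right
    rw [hw.mul x y hx0 hy0]
    rcases hx with hx | hx
    · exact absurd hx hx0
    rcases hy with hy | hy
    · exact absurd hy hy0
    exact add_nonneg hx hy
  one_mem' := Or.inr (by rw [hw.one])
  add_mem' := by
    rintro x y hx hy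
    by_cases hx0 : x = 0
    · rw [hx0, zero_add]; exact hy
    by_cases hy0 : y = 0
    · rw [hy0, add_zero]; exact hx
    by_cases hxy : x + y = 0
    · left; exact hxy
    right
    rcases hx with hx | hx
    · exact absurd hx hx0
    rcases hy with hy | hy
    · exact absurd hy hy0
    exact le_trans (le_min hx hy) (hw.add x y hx0 hy0 hxy)
  zero_mem' := Or.inl rfl
  neg_mem' := by
    rintro x hx
    by_cases hx0 : x = 0
    · left; simp [hx0]
    right
    rw [hw.neg x hx0]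
    rcases hx with hx | hx
    · exact absurd hx hx0
    exact hx

theorem mem_ring (x : AlgebraicClosure ℚ) : x ∈ hw.ring ↔ x = 0 ∨ 0 ≤ w x := Iff.rfl

theorem int_nonneg (n : ℤ) : (n : AlgebraicClosure ℚ) = 0 ∨ 0 ≤ w n :=
  (hw.mem_ring _).1 (intCast_mem hw.ring n)

/-- Integers prime to p are units. -/
theorem coprime [hp : Fact p.Prime] (m : ℤ) (hm : ¬ (p : ℤ) ∣ m) : w m = 0 := by
  have hm0 : (m : AlgebraicClosure ℚ) ≠ 0 := by
    intro h
    apply hm
    rw [Int.cast_eq_zero] at h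
    rw [h]
    exact dvd_zero _
  have h1 : 0 ≤ w m := (hw.int_nonneg m).resolve_left hm0
  by_contra h2
  have h3 : 0 < w m := lt_of_le_of_ne h1 (Ne.symm h2)
  have hc : IsCoprime (p : ℤ) m :=
    (Prime.coprime_iff_not_dvd (Nat.prime_iff_prime_int.1 hp.out)).2 hm
  obtain ⟨a, b, hab⟩ := hc
  have hab' : (a : AlgebraicClosure ℚ) * p + b * m = 1 := by exact_mod_cast hab
  -- the maximal ideal
  have hp0 : (p : AlgebraicClosure ℚ) ≠ 0 := by exact_mod_cast hp.out.ne_zero
  by_cases ha : (a : AlgebraicClosure ℚ) = 0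
  · rw [ha, zero_mul, zero_add] at hab'
    have hb0 : (b : AlgebraicClosure ℚ) ≠ 0 := by
      intro h; rw [h, zero_mul] at hab'; exact zero_ne_one hab'
    have := hw.mul _ _ hb0 hm0
    rw [hab', hw.one] at this
    have := (hw.int_nonneg b).resolve_left hb0
    linarith
  by_cases hb : (b : AlgebraicClosure ℚ) = 0
  · rw [hb, zero_mul, add_zero] at hab'
    have := hw.mul _ _ ha hp0
    rw [hab', hw.one] at this
    have := (hw.int_nonneg a).resolve_left ha
    have := hw.pos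
    linarith
  have h4 := hw.add _ _ (mul_ne_zero ha hp0) (mul_ne_zero hb hm0) (by rw [hab']; exact one_ne_zero)
  rw [hab', hw.one, hw.mul _ _ ha hp0, hw.mul _ _ hb hm0] at h4
  have h5 := (hw.int_nonneg a).resolve_left ha
  have h6 := (hw.int_nonneg b).resolve_left hb
  have h7 := hw.pos
  have h8 : 0 < min (w a + w p) (w b + w m) := lt_min (by linarith) (by linarith)
  linarith

end IsVal

/-- The elements with p-power denominator. -/
def pint (p : ℕ) : Subring (AlgebraicClosure ℚ) where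
  carrier := {x | ∃ N : ℕ, IsIntegral ℤ ((p : AlgebraicClosure ℚ) ^ N * x)}
  mul_mem' := by
    rintro x y ⟨N, hN⟩ ⟨M, hM⟩
    refine ⟨N + M, ?_⟩
    have := hN.mul hM
    have e : (p : AlgebraicClosure ℚ) ^ (N + M) * (x * y) =
      (p : AlgebraicClosure ℚ) ^ N * x * ((p : AlgebraicClosure ℚ) ^ M * y) := by
      rw [pow_add]; ring
    rw [e]
    exact this
  one_mem' := ⟨0, by simpa using isIntegral_one⟩
  add_mem' := by
    rintro x y ⟨N, hN⟩ ⟨M, hM⟩
    refine ⟨N + M, ?_⟩
    have hp : IsIntegral ℤ (p : AlgebraicClosure ℚ) := by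
      have := isIntegral_algebraMap (R := ℤ) (A := AlgebraicClosure ℚ) (x := (p : ℤ))
      simpa using this
    have := ((hp.pow M).mul hN).add ((hp.pow N).mul hM)
    have e : (p : AlgebraicClosure ℚ) ^ (N + M) * (x + y) =
      (p : AlgebraicClosure ℚ) ^ M * ((p : AlgebraicClosure ℚ) ^ N * x) +
      (p : AlgebraicClosure ℚ) ^ N * ((p : AlgebraicClosure ℚ) ^ M * y) := by
      rw [pow_add]; ring
    rw [e]
    exact this
  zero_mem' := ⟨0, by simpa using isIntegral_zero⟩
  neg_mem' := by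
    rintro x ⟨N, hN⟩
    refine ⟨N, ?_⟩
    have := hN.neg
    rwa [← mul_neg] at this

theorem mem_pint (p : ℕ) (x : AlgebraicClosure ℚ) :
    x ∈ pint p ↔ ∃ N : ℕ, IsIntegral ℤ ((p : AlgebraicClosure ℚ) ^ N * x) := Iff.rfl

theorem pint_of_int (p : ℕ) {x : AlgebraicClosure ℚ} (hx : IsIntegral ℤ x) : x ∈ pint p :=
  ⟨0, by simpa using hx⟩

theorem pint_map (p : ℕ) (γ : AlgebraicClosure ℚ ≃+* AlgebraicClosure ℚ) {x : AlgebraicClosure ℚ}
    (hx : x ∈ pint p) : γ x ∈ pint p := by
  obtain ⟨N, hN⟩ := hx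
  refine ⟨N, ?_⟩
  have := hN.map (γ.toRingHom.toIntAlgHom)
  simpa using this

/-- A rational number which is p-integral and has p-power denominator is an integer. -/
theorem rat_int {p : ℕ} [hp : Fact p.Prime] {w : AlgebraicClosure ℚ → ℚ} (hw : IsVal p w) (q : ℚ)
    (h1 : algebraMap ℚ (AlgebraicClosure ℚ) q ∈ hw.ring)
    (h2 : algebraMap ℚ (AlgebraicClosure ℚ) q ∈ pint p) : ∃ m : ℤ, (m : ℚ) = q := by
  obtain ⟨N, hN⟩ := h2
  have h3 : IsIntegral ℤ ((p : ℚ) ^ N * q) := by
    have : (p : AlgebraicClosure ℚ) ^ N * algebraMap ℚ (AlgebraicClosure ℚ) q =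
        algebraMap ℚ (AlgebraicClosure ℚ) ((p : ℚ) ^ N * q) := by simp
    rw [this] at hN
    exact (isIntegral_algebraMap_iff (algebraMap ℚ (AlgebraicClosure ℚ)).injective).1 hN
  obtain ⟨m, hm⟩ := IsIntegrallyClosed.isIntegral_iff.1 h3
  simp only [algebraMap_int_eq, Int.coe_castRingHom] at hm
  have hp0 : (p : ℚ) ≠ 0 := by exact_mod_cast hp.out.ne_zero
  by_cases hq : q = 0
  · exact ⟨0, by simp [hq]⟩
  have hm0 : m ≠ 0 := by
    intro h
    rw [h, Int.cast_zero] at hm
    exact mul_ne_zero (pow_ne_zero _ hp0) hq hm.symm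
  have hfin : FiniteMultiplicity (p : ℤ) m := by
    rw [Int.finiteMultiplicity_iff]
    exact ⟨by simpa using hp.out.ne_one, hm0⟩
  obtain ⟨m', hm', hm''⟩ := hfin.exists_eq_pow_mul_and_not_dvd
  set j := multiplicity (p : ℤ) m
  have hm'0 : (m' : AlgebraicClosure ℚ) ≠ 0 := by
    intro h
    rw [Int.cast_eq_zero] at h
    apply hm0
    rw [hm', h, mul_zero]
  have hP0 : (p : AlgebraicClosure ℚ) ≠ 0 := by exact_mod_cast hp.out.ne_zero
  have hq0 : algebraMap ℚ (AlgebraicClosure ℚ) q ≠ 0 := by simpa using hq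
  have e1 : (p : AlgebraicClosure ℚ) ^ N * algebraMap ℚ (AlgebraicClosure ℚ) q =
      (p : AlgebraicClosure ℚ) ^ j * m' := by
    have h4 : ((p : ℚ) ^ N * q) = (p : ℚ) ^ j * m' := by
      rw [← hm, hm']
      push_cast
      rfl
    have h5 := congrArg (algebraMap ℚ (AlgebraicClosure ℚ)) h4
    simpa using h5
  have e2 := congrArg w e1
  rw [hw.mul _ _ (pow_ne_zero _ hP0) hq0, hw.mul _ _ (pow_ne_zero _ hP0) hm'0, hw.pow _ hP0,
    hw.pow _ hP0, hw.coprime m' hm'', add_zero] at e2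
  have e3 : 0 ≤ w (algebraMap ℚ (AlgebraicClosure ℚ) q) := ((hw.mem_ring _).1 h1).resolve_left hq0
  have e4 : N ≤ j := by
    by_contra h
    push Not at h
    have h6 : (j : ℚ) + 1 ≤ N := by exact_mod_cast h
    have := hw.pos
    nlinarith
  refine ⟨(p : ℤ) ^ (j - N) * m', ?_⟩
  have h7 : (p : ℚ) ^ N * ((p : ℚ) ^ (j - N) * m') = (p : ℚ) ^ N * q := by
    rw [← hm, hm', ← mul_assoc, ← pow_add, Nat.add_sub_cancel' e4]
    push_cast
    rfl
  have h8 := mul_left_cancel₀ (pow_ne_zero N hp0) h7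
  push_cast
  exact h8

/-- An element all of whose conjugates are p-integral with p-power denominators is integral. -/
theorem integral_of_conj {p : ℕ} [hp : Fact p.Prime] {w : AlgebraicClosure ℚ → ℚ} (hw : IsVal p w)
    (x : AlgebraicClosure ℚ)
    (h : ∀ γ : AlgebraicClosure ℚ ≃+* AlgebraicClosure ℚ, γ x ∈ hw.ring ∧ γ x ∈ pint p) :
    IsIntegral ℤ x := by
  classical
  have hx : IsIntegral ℚ x := Algebra.IsIntegral.isIntegral x
  set P := (minpoly ℚ x).map (algebraMap ℚ (AlgebraicClosure ℚ)) with hP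
  have hsp : P.Splits := IsAlgClosed.splits _
  have hmon : P.Monic := (minpoly.monic hx).map _
  have hfac : P = (P.roots.map fun a => Polynomial.X - Polynomial.C a).prod := by
    have := hsp.eq_prod_roots_of_monic hmon
    exact this
  let V : Subring (AlgebraicClosure ℚ) := hw.ring ⊓ pint p
  have hroots : ∀ a ∈ P.roots, a ∈ V := by
    intro a ha
    have h1 : Polynomial.aeval a (minpoly ℚ x) = 0 := by
      have := (Polynomial.mem_roots hmon.ne_zero).1 ha
      rw [hP, Polynomial.IsRoot, Polynomial.eval_map_algebraMap] at this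
      exact this
    obtain ⟨σ, hσ⟩ := minpoly.exists_algEquiv_of_root' (K := ℚ) (L := AlgebraicClosure ℚ)
      hx.isAlgebraic h1
    rw [← hσ]
    exact h σ.toRingEquiv
  have hl : P ∈ Polynomial.lifts V.subtype := by
    rw [hfac]
    apply Subsemiring.multiset_prod_mem
    intro c hc
    obtain ⟨a, ha, rfl⟩ := Multiset.mem_map.1 hc
    rw [Polynomial.lifts_iff_coeff_lifts]
    intro n
    have hv : (Polynomial.X - Polynomial.C a).coeff n ∈ V := by
      rw [Polynomial.coeff_sub, Polynomial.coeff_X, Polynomial.coeff_C]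
      apply V.sub_mem
      · split_ifs
        · exact V.one_mem
        · exact V.zero_mem
      · split_ifs
        · exact hroots a ha
        · exact V.zero_mem
    exact ⟨⟨_, hv⟩, rfl⟩
  rw [Polynomial.lifts_iff_coeff_lifts] at hl
  have hlZ : minpoly ℚ x ∈ Polynomial.lifts (Int.castRingHom ℚ) := by
    rw [Polynomial.lifts_iff_coeff_lifts]
    intro n
    obtain ⟨v, hv⟩ := hl n
    rw [hP, Polynomial.coeff_map] at hv
    have hv' : algebraMap ℚ (AlgebraicClosure ℚ) ((minpoly ℚ x).coeff n) ∈ V := by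
      rw [← hv]
      exact v.2
    obtain ⟨m, hm⟩ := rat_int hw _ hv'.1 hv'.2
    exact ⟨m, by simpa using hm⟩
  obtain ⟨Q, hQ1, -, hQ3⟩ := Polynomial.lifts_and_natDegree_eq_and_monic hlZ (minpoly.monic hx)
  refine ⟨Q, hQ3, ?_⟩
  have h9 : Polynomial.aeval x (Q.map (Int.castRingHom ℚ)) = 0 := by
    rw [hQ1]
    exact minpoly.aeval ℚ x
  rw [Polynomial.aeval_def, Polynomial.eval₂_map] at h9
  have : (algebraMap ℚ (AlgebraicClosure ℚ)).comp (Int.castRingHom ℚ) =
      algebraMap ℤ (AlgebraicClosure ℚ) := RingHom.ext_int _ _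
  rwa [this] at h9

/-- Kronecker, for elements of the algebraic closure. -/
theorem kronecker (x : AlgebraicClosure ℚ) (hx : IsIntegral ℤ x)
    (h : ∀ τ : AlgebraicClosure ℚ →+* ℂ, ‖τ x‖ = 1) : ∃ N : ℕ, 0 < N ∧ x ^ N = 1 := by
  classical
  have hxQ : IsIntegral ℚ x := Algebra.IsIntegral.isIntegral x
  let K := IntermediateField.adjoin ℚ {x}
  have : FiniteDimensional ℚ K := IntermediateField.adjoin.finiteDimensional hxQ
  have : NumberField K := ⟨⟩
  let y : K := IntermediateField.AdjoinSimple.gen ℚ x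
  have hy : algebraMap K (AlgebraicClosure ℚ) y = x := IntermediateField.AdjoinSimple.algebraMap_gen ℚ x
  have hyi : IsIntegral ℤ y := by
    rw [← hy] at hx
    exact (isIntegral_algebraMap_iff (algebraMap K (AlgebraicClosure ℚ)).injective).1 hx
  have hyn : ∀ φ : K →+* ℂ, ‖φ y‖ = 1 := by
    intro φ
    let _ : Algebra K ℂ := φ.toAlgebra
    let ψ : AlgebraicClosure ℚ →ₐ[K] ℂ := IsAlgClosed.lift
    have := h ψ.toRingHom
    rw [← hy] at this
    have h2 : ψ.toRingHom (algebraMap K (AlgebraicClosure ℚ) y) = φ y := by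
      exact ψ.commutes y
    rwa [h2] at this
  obtain ⟨n, hn, hn'⟩ := NumberField.Embeddings.pow_eq_one_of_norm_eq_one K ℂ hyi hyn
  refine ⟨n, hn, ?_⟩
  rw [← hy, ← map_pow, hn', map_one]

/-- Complex conjugation. -/
theorem exists_conj_emb : ∃ (τ : AlgebraicClosure ℚ →ₐ[ℚ] ℂ) (c : AlgebraicClosure ℚ ≃+* AlgebraicClosure ℚ),
    ∀ x, τ (c x) = (starRingEnd ℂ) (τ x) := by
  classical
  let τ : AlgebraicClosure ℚ →ₐ[ℚ] ℂ := IsAlgClosed.lift
  obtain ⟨c, hc⟩ : ∃ c : AlgebraicClosure ℚ ≃ₐ[ℚ] AlgebraicClosure ℚ,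
      ∀ x, τ (c x) = (starRingEnd ℂ) (τ x) := by
    let _ : Algebra (AlgebraicClosure ℚ) ℂ := τ.toRingHom.toAlgebra
    have : IsScalarTower ℚ (AlgebraicClosure ℚ) ℂ := IsScalarTower.of_algebraMap_eq fun q => by
      exact (τ.commutes q).symm
    let χ : ℂ →ₐ[ℚ] ℂ := (Complex.conjAe.restrictScalars ℚ).toAlgHom
    refine ⟨χ.restrictNormal' (AlgebraicClosure ℚ), fun x => ?_⟩
    exact χ.restrictNormal_commutes (AlgebraicClosure ℚ) x
  exact ⟨τ, c.toRingEquiv, hc⟩

theorem conj_weil {p : ℕ} {τ : AlgebraicClosure ℚ →ₐ[ℚ] ℂ}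
    {c : AlgebraicClosure ℚ ≃+* AlgebraicClosure ℚ}
    (hc : ∀ x, τ (c x) = (starRingEnd ℂ) (τ x)) {x : AlgebraicClosure ℚ} (hx : IsWeil p x) :
    c x * x = p := by
  have inj : Function.Injective τ := τ.toRingHom.injective
  apply inj
  rw [map_mul, hc, map_natCast, mul_comm, Complex.mul_conj, Complex.normSq_eq_norm_sq]
  have := hx.2 τ.toRingHom
  have h2 : ‖τ x‖ ^ 2 = p := this
  rw [h2]
  simp

/-- Block W, conjugation. -/
theorem exists_conj (p : ℕ) : ∃ c : AlgebraicClosure ℚ ≃+* AlgebraicClosure ℚ,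
    ∀ x, IsWeil p x → c x * x = p := by
  obtain ⟨τ, c, hc⟩ := exists_conj_emb
  exact ⟨c, fun x hx => conj_weil hc hx⟩

theorem IsWeil.ne_zero {p : ℕ} [hp : Fact p.Prime] {x : AlgebraicClosure ℚ} (hx : IsWeil p x) :
    x ≠ 0 := by
  intro h
  obtain ⟨τ, -, -⟩ := exists_conj_emb
  have := hx.2 τ.toRingHom
  rw [h, map_zero, norm_zero] at this
  have hp0 : (p : ℝ) ≠ 0 := by exact_mod_cast hp.out.ne_zero
  apply hp0
  rw [← this]
  norm_num

/-- The valuation of a conjugate of the monomial. -/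
theorem val_monomial {ι : Type*} [Fintype ι] {p : ℕ} [hp : Fact p.Prime] {z : ι → AlgebraicClosure ℚ}
    (hz : ∀ i, IsWeil p (z i)) {w : AlgebraicClosure ℚ → ℚ} (hw : IsVal p w) (n : ι → ℤ)
    (γ : AlgebraicClosure ℚ ≃+* AlgebraicClosure ℚ) :
    w (γ (∏ i, z i ^ n i)) = ∑ i, (n i : ℚ) * w (γ (z i)) := by
  have hγ0 : ∀ i, γ (z i) ≠ 0 := fun i h => (hz i).ne_zero ((map_eq_zero γ).1 h)
  rw [map_prod, hw.prod]
  · apply sum_congr rfl
    intro i _
    rw [map_zpow₀, hw.zpow _ (hγ0 i)]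
  · intro i
    rw [map_zpow₀]
    exact zpow_ne_zero _ (hγ0 i)

/-- Block W, core. -/
theorem weil_core {ι : Type*} [Fintype ι] (p : ℕ) [Fact p.Prime] (z : ι → AlgebraicClosure ℚ)
    (hz : ∀ i, IsWeil p (z i))
    (w : AlgebraicClosure ℚ → ℚ) (hw : IsVal p w) (n : ι → ℤ) (hn : ∑ i, n i = 0)
    (h : ∀ γ : AlgebraicClosure ℚ ≃+* AlgebraicClosure ℚ, ∑ i, (n i : ℚ) * w (γ (z i)) = 0) :
    ∃ N : ℕ, 0 < N ∧ (∏ i, z i ^ n i) ^ N = 1 := by
  classical
  have hpp : p.Prime := Fact.out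
  have hp0 : (p : ℝ) ≠ 0 := by exact_mod_cast hpp.ne_zero
  have hP0 : (p : AlgebraicClosure ℚ) ≠ 0 := by exact_mod_cast hpp.ne_zero
  obtain ⟨c, hc⟩ := exists_conj p
  have hz0 : ∀ i, z i ≠ 0 := fun i => (hz i).ne_zero
  set x : AlgebraicClosure ℚ := ∏ i, z i ^ n i with hx
  have hall : ∀ γ : AlgebraicClosure ℚ ≃+* AlgebraicClosure ℚ, w (γ x) = 0 := by
    intro γ
    rw [hx, val_monomial hz hw n γ, h γ]
  -- the denominators
  have hpint : x ∈ pint p := by
    rw [hx]
    apply Subring.prod_mem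
    intro i _
    have hzi : z i ∈ pint p := pint_of_int p (hz i).1
    have hzi' : (z i)⁻¹ ∈ pint p := by
      have h1 : (z i)⁻¹ = (p : AlgebraicClosure ℚ)⁻¹ * c (z i) := by
        have h2 := hc (z i) (hz i)
        have h3 := hz0 i
        rw [← h2, mul_inv, mul_comm (c (z i))⁻¹, mul_assoc, inv_mul_cancel₀, mul_one]
        exact fun h4 => h3 ((map_eq_zero c).1 h4)
      rw [h1]
      apply Subring.mul_mem
      · refine ⟨1, ?_⟩
        rw [pow_one, mul_inv_cancel₀ hP0]
        exact isIntegral_one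
      · apply pint_of_int
        have := (hz i).1.map (c.toRingHom.toIntAlgHom)
        simpa using this
    cases n i with
    | ofNat m => simpa using Subring.pow_mem _ hzi m
    | negSucc m =>
      rw [zpow_negSucc, ← inv_pow]
      exact Subring.pow_mem _ hzi' _
  have hint : IsIntegral ℤ x := by
    apply integral_of_conj hw
    intro γ
    exact ⟨(hw.mem_ring _).2 (Or.inr (hall γ).ge), pint_map p γ hpint⟩
  apply kronecker x hint
  intro τ'
  have hone : ‖τ' x‖ ^ 2 = 1 := by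
    rw [hx, map_prod, norm_prod, ← prod_pow]
    have key : ∀ s : Finset ι, ∏ i ∈ s, ‖τ' (z i ^ n i)‖ ^ 2 = (p : ℝ) ^ (∑ i ∈ s, n i) := by
      intro s
      induction s using Finset.induction_on with
      | empty => simp
      | insert a s ha ih =>
        rw [prod_insert ha, sum_insert ha, zpow_add₀ hp0, ih]
        congr 1
        rw [map_zpow₀, norm_zpow, ← (hz a).2 τ', ← zpow_natCast, ← zpow_natCast, ← zpow_mul,
          ← zpow_mul, mul_comm]
    rw [key, hn, zpow_zero]
  have := norm_nonneg (τ' x)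
  nlinarith [sq_nonneg (‖τ' x‖ - 1)]

/-- Block W. -/
theorem weil {ι : Type*} [Fintype ι] (p : ℕ) [Fact p.Prime] (z : ι → AlgebraicClosure ℚ)
    (hz : ∀ i, IsWeil p (z i)) (δ : AlgebraicClosure ℚ) (D : ℚ) (hD : 0 ≤ D)
    (hδ : δ ^ 2 = - algebraMap ℚ (AlgebraicClosure ℚ) D)
    (w : AlgebraicClosure ℚ → ℚ) (hw : IsVal p w) (n : ι → ℤ) (hn : ∑ i, n i = 0)
    (h0 : ∀ γ : AlgebraicClosure ℚ ≃+* AlgebraicClosure ℚ, γ δ = δ →
      ∑ i, (n i : ℚ) * w (γ (z i)) = 0) :
    ∃ N : ℕ, 0 < N ∧ (∏ i, z i ^ n i) ^ N = 1 := by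
  classical
  obtain ⟨τ, c, hc⟩ := exists_conj_emb
  have inj : Function.Injective τ := τ.toRingHom.injective
  have hP0 : (p : AlgebraicClosure ℚ) ≠ 0 := by
    exact_mod_cast (Fact.out : p.Prime).ne_zero
  have hcδ : c δ = - δ := by
    apply inj
    rw [hc, map_neg]
    have h1 : (τ δ) ^ 2 = -((D : ℝ) : ℂ) := by
      rw [← map_pow, hδ, map_neg]
      congr 1
      rw [AlgHom.commutes]
      simp
    have h2 : (τ δ).re * (τ δ).im = 0 ∧ (τ δ).re ^ 2 - (τ δ).im ^ 2 = - (D : ℝ) := by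
      have h3 := congrArg Complex.re h1
      have h4 := congrArg Complex.im h1
      rw [sq] at h3 h4
      simp only [Complex.mul_re, Complex.mul_im, Complex.neg_re, Complex.neg_im,
        Complex.ofReal_re, Complex.ofReal_im] at h3 h4
      constructor
      · linarith
      · rw [sq, sq]; exact h3
    have hre : (τ δ).re = 0 := by
      rcases mul_eq_zero.1 h2.1 with h | h
      · exact h
      · have h5 := h2.2
        rw [h] at h5
        have hD' : (0 : ℝ) ≤ D := by exact_mod_cast hD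
        have h6 : (τ δ).re ^ 2 ≤ 0 := by nlinarith
        exact pow_eq_zero_iff (two_ne_zero) |>.1 (le_antisymm h6 (sq_nonneg _))
    apply Complex.ext
    · simp [hre]
    · simp
  have hcz : ∀ i, c (z i) = p / z i := fun i => by
    rw [eq_div_iff (hz i).ne_zero]
    exact conj_weil hc (hz i)
  apply weil_core p z hz w hw n hn
  intro γ
  have hsq : (γ δ) ^ 2 = δ ^ 2 := by
    rw [← map_pow, hδ, map_neg]
    congr 1
    exact (RingHom.congr_fun (RingHom.ext_rat (γ.toRingHom.comp (algebraMap ℚ (AlgebraicClosure ℚ)))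
      (algebraMap ℚ (AlgebraicClosure ℚ))) D)
  rcases sq_eq_sq_iff_eq_or_eq_neg.1 hsq with h | h
  · exact h0 γ h
  · have hc' : c.symm δ = -δ := by
      rw [RingEquiv.symm_apply_eq, map_neg, hcδ, neg_neg]
    have h1 := h0 (c.symm.trans γ) (by
      change γ (c.symm δ) = δ
      rw [hc', map_neg, h, neg_neg])
    rw [← val_monomial hz hw] at h1
    rw [← val_monomial hz hw]
    set x : AlgebraicClosure ℚ := ∏ i, z i ^ n i with hx
    have hx0 : x ≠ 0 := prod_ne_zero_iff.2 fun i _ => zpow_ne_zero _ (hz i).ne_zero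
    have hγ0 : γ x ≠ 0 := fun h => hx0 ((map_eq_zero γ).1 h)
    have hcx : c x = x⁻¹ := by
      rw [hx, map_prod]
      simp only [map_zpow₀, hcz, div_zpow]
      rw [prod_div_distrib, ← Finset.prod_inv_distrib]
      have : ∏ i, (p : AlgebraicClosure ℚ) ^ n i = 1 := by
        have h1 : ∏ i, (p : AlgebraicClosure ℚ) ^ n i = (p : AlgebraicClosure ℚ) ^ (∑ i, n i) := by
          have key : ∀ s : Finset ι, ∏ i ∈ s, (p : AlgebraicClosure ℚ) ^ n i =
              (p : AlgebraicClosure ℚ) ^ (∑ i ∈ s, n i) := by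
            intro s
            induction s using Finset.induction_on with
            | empty => simp
            | insert a s ha ih => rw [prod_insert ha, sum_insert ha, zpow_add₀ hP0, ih]
          exact key _
        rw [h1, hn, zpow_zero]
      rw [this, one_div, Finset.prod_inv_distrib]
    have h2 : c.symm x = x⁻¹ := by
      rw [RingEquiv.symm_apply_eq, map_inv₀, hcx, inv_inv]
    have h3 : (c.symm.trans γ) x = (γ x)⁻¹ := by
      change γ (c.symm x) = _
      rw [h2, map_inv₀]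
    rw [h3, hw.inv _ hγ0] at h1
    linarith

end weil

end Pool.Agent.FT
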