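import Pool.Agent.Lib_helper48.FT.Defs
import Pool.Agent.Lib_helper9.U4.Mix3

/-! Blocks T1, T2. -/

set_option autoImplicit false
set_option linter.unusedSectionVars false

namespace Pool.Agent.FT

open Module Finset

section lie

variable {K : Type*} [Field K] [CharZero K] {ι : Type*} [Fintype ι] [DecidableEq ι]
  {g : Type*} [LieRing g] [LieAlgebra K g]
  {U : Type*} [AddCommGroup U] [Module K U] [LieRingModule g U] [LieModule K g U]

/-- The image plus the scalars. -/
def imL (K : Type*) [Field K] (g : Type*) [LieRing g] [LieAlgebra K g]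
    (U : Type*) [AddCommGroup U] [Module K U] [LieRingModule g U] [LieModule K g U] :
    Submodule K (Module.End K U) where
  carrier := {x | ∃ (y : g) (c : K), ∀ v : U, ⁅y, v⁆ = x v + c • v}
  zero_mem' := ⟨0, 0, fun v => by simp⟩
  add_mem' := by
    rintro x x' ⟨y, c, h⟩ ⟨y', c', h'⟩
    refine ⟨y + y', c + c', fun v => ?_⟩
    rw [add_lie, h, h', LinearMap.add_apply, add_smul]
    abel
  smul_mem' := by
    rintro a x ⟨y, c, h⟩
    refine ⟨a • y, a * c, fun v => ?_⟩
    rw [smul_lie, h, LinearMap.smul_apply, smul_add, mul_smul]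

theorem mem_imL (x : Module.End K U) :
    x ∈ imL K g U ↔ ∃ (y : g) (c : K), ∀ v : U, ⁅y, v⁆ = x v + c • v := Iff.rfl

theorem imL_br {x x' : Module.End K U} (hx : x ∈ imL K g U) (hx' : x' ∈ imL K g U) :
    x * x' - x' * x ∈ imL K g U := by
  obtain ⟨y, c, h⟩ := hx
  obtain ⟨y', c', h'⟩ := hx'
  refine ⟨⁅y, y'⁆, 0, fun v => ?_⟩
  rw [lie_lie, h', h, h, h', LinearMap.sub_apply, Module.End.mul_apply, Module.End.mul_apply,
    map_add, map_add, map_smul, map_smul, smul_add, smul_add, zero_smul, smul_smul, smul_smul,
    mul_comm c' c]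
  abel

/-- The matrix units. -/
noncomputable def eu (b : Basis ι K U) (i j : ι) : Module.End K U := (b.coord j).smulRight (b i)

theorem eu_apply (b : Basis ι K U) (i j : ι) (v : U) : eu b i j v = b.coord j v • b i := rfl

theorem eu_basis (b : Basis ι K U) (i j k : ι) :
    eu b i j (b k) = if j = k then b i else 0 := by
  rw [eu_apply, Basis.coord_apply, Basis.repr_self, Finsupp.single_apply]
  by_cases h : j = k
  · subst h; simp
  · rw [if_neg (Ne.symm h), if_neg h, zero_smul]

theorem eu_mul (b : Basis ι K U) (i j k l : ι) :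
    eu b i j * eu b k l = if j = k then eu b i l else 0 := by
  apply b.ext
  intro m
  rw [Module.End.mul_apply, eu_basis]
  by_cases h : j = k
  · subst h
    rw [if_pos rfl, eu_basis]
    split_ifs
    · rw [eu_basis, if_pos rfl]
    · rw [map_zero]
  · rw [if_neg h]
    split_ifs
    · rw [eu_basis, if_neg h]; rfl
    · rw [map_zero]; rfl

theorem eu_mul_mul (b : Basis ι K U) (i j : ι) (x : Module.End K U) :
    eu b i i * x * eu b j j = (b.coord i (x (b j))) • eu b i j := by
  apply b.ext
  intro m
  rw [Module.End.mul_apply, Module.End.mul_apply, eu_basis, LinearMap.smul_apply, eu_basis]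
  split_ifs
  · rw [eu_apply]
  · rw [map_zero, map_zero, smul_zero]

/-- Off-diagonal entries can be extracted. -/
theorem extract (b : Basis ι K U) (hd : ∀ i, eu b i i ∈ imL K g U) {x : Module.End K U}
    (hx : x ∈ imL K g U) {i j : ι} (hij : i ≠ j) (hne : b.coord i (x (b j)) ≠ 0) :
    eu b i j ∈ imL K g U := by
  set e := eu b i i with he
  set f := eu b j j with hf
  have hee : e * e = e := by rw [he, eu_mul, if_pos rfl]
  have hff : f * f = f := by rw [hf, eu_mul, if_pos rfl]
  have hef : e * f = 0 := by rw [he, hf, eu_mul, if_neg hij]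
  have hfe : f * e = 0 := by rw [he, hf, eu_mul, if_neg hij.symm]
  have h1 : e * x - x * e ∈ imL K g U := imL_br (hd i) hx
  have h2 : e * (e * x - x * e) - (e * x - x * e) * e ∈ imL K g U := imL_br (hd i) h1
  set y1 := (e * (e * x - x * e) - (e * x - x * e) * e) + (e * x - x * e) with hy1
  have h3 : y1 ∈ imL K g U := (imL K g U).add_mem h2 h1
  have h4 : f * y1 - y1 * f ∈ imL K g U := imL_br (hd j) h3
  have h5 : f * (f * y1 - y1 * f) - (f * y1 - y1 * f) * f ∈ imL K g U := imL_br (hd j) h4
  have h6 := (imL K g U).sub_mem h5 h4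
  have e1 : y1 = (2 : K) • (e * x) - (2 : K) • (e * x * e) := by
    have : y1 = e * e * x - e * x * e - e * x * e + x * (e * e) + (e * x - x * e) := by
      rw [hy1]; noncomm_ring
    rw [this, hee, two_smul, two_smul]
    abel
  have e2 : f * y1 = 0 := by
    rw [e1, mul_sub, mul_smul_comm, mul_smul_comm, ← mul_assoc, ← mul_assoc, hfe]
    simp [← mul_assoc, hfe]
  have e3 : y1 * f = (2 : K) • (e * x * f) := by
    rw [e1, sub_mul, smul_mul_assoc, smul_mul_assoc, mul_assoc (e * x) e f, hef, mul_zero,
      smul_zero, sub_zero]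
  have e4 : f * (f * y1 - y1 * f) - (f * y1 - y1 * f) * f - (f * y1 - y1 * f) =
      (4 : K) • (e * x * f) := by
    rw [e2, e3]
    have : e * x * f * f = e * x * f := by rw [mul_assoc, hff]
    have h' : f * (e * x * f) = 0 := by rw [← mul_assoc, ← mul_assoc, hfe]; simp
    simp only [zero_sub, mul_neg, neg_mul, mul_smul_comm, smul_mul_assoc, this, h', smul_zero,
      neg_zero, sub_neg_eq_add]
    rw [zero_add, ← add_smul]
    norm_num
  rw [e4, he, hf, eu_mul_mul, smul_smul] at h6
  have h7 := (imL K g U).smul_mem ((4 * b.coord i (x (b j)))⁻¹) h6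
  have h4ne : (4 : K) ≠ 0 := by norm_num
  rwa [smul_smul, inv_mul_cancel₀ (mul_ne_zero h4ne hne), one_smul] at h7

/-- Block T2: an irreducible module on which the full torus acts. -/
theorem onSl_of_torus [LieModule.IsIrreducible K g U] (b : Basis ι K U)
    (mem : ∀ f : ι → ℚ, ∃ (y : g) (c : K), ∀ i, ⁅y, b i⁆ = ((f i : K) + c) • b i) :
    Pool.Agent.U4.OnSl K g U := by
  have hnt : Nontrivial U := LieModule.nontrivial_of_isIrreducible K g U
  have hd : ∀ i, eu b i i ∈ imL K g U := by
    intro i
    obtain ⟨y, c, h⟩ := mem (fun k => if k = i then 1 else 0)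
    refine ⟨y, c, fun v => ?_⟩
    have : LieModule.toEnd K g U y = eu b i i + c • 1 := by
      apply b.ext
      intro k
      show ⁅y, b k⁆ = _
      rw [h, LinearMap.add_apply, eu_basis, LinearMap.smul_apply, Module.End.one_apply, add_smul]
      congr 1
      by_cases hk : i = k
      · subst hk; simp
      · rw [if_neg hk, if_neg (Ne.symm hk)]; simp
    have h2 := LinearMap.congr_fun this v
    exact h2
  have hall : ∀ i j, eu b i j ∈ imL K g U := by
    intro i j
    let R : Set ι := {k | k = j ∨ eu b k j ∈ imL K g U}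
    have hR : ∀ (y : g) (k : ι), k ∈ R → ⁅y, b k⁆ ∈ Submodule.span K (b '' R) := by
      intro y k hk
      have hx : LieModule.toEnd K g U y ∈ imL K g U := ⟨y, 0, fun v => by simp⟩
      rw [← b.sum_repr ⁅y, b k⁆]
      apply Submodule.sum_mem
      intro l _
      by_cases hl : b.repr ⁅y, b k⁆ l = 0
      · rw [hl, zero_smul]; exact Submodule.zero_mem _
      apply Submodule.smul_mem
      apply Submodule.subset_span
      refine ⟨l, ?_, rfl⟩
      by_cases hlk : l = k
      · rw [hlk]; exact hk
      have h1 : eu b l k ∈ imL K g U := extract b hd hx hlk hl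
      by_cases hlj : l = j
      · exact Or.inl hlj
      right
      rcases hk with hk | hk
      · rw [hk] at h1; exact h1
      · have h2 := imL_br h1 hk
        rw [eu_mul, if_pos rfl, eu_mul, if_neg (Ne.symm hlj), sub_zero] at h2
        exact h2
    let N : LieSubmodule K g U :=
      { Submodule.span K (b '' R) with
        lie_mem := by
          intro y m hm
          change ⁅y, m⁆ ∈ Submodule.span K (b '' R)
          change m ∈ Submodule.span K (b '' R) at hm
          induction hm using Submodule.span_induction with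
          | mem v hv =>
            obtain ⟨k, hk, rfl⟩ := hv
            exact hR y k hk
          | zero => rw [lie_zero]; exact Submodule.zero_mem _
          | add v w _ _ hv hw => rw [lie_add]; exact Submodule.add_mem _ hv hw
          | smul a v _ hv => rw [lie_smul]; exact Submodule.smul_mem _ a hv }
    have hN : (N : Submodule K U) = Submodule.span K (b '' R) := rfl
    have htop : Submodule.span K (b '' R) = ⊤ := by
      rcases eq_bot_or_eq_top N with h | h
      · exfalso
        have h1 : b j ∈ (N : Submodule K U) := by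
          rw [hN]; exact Submodule.subset_span ⟨j, Or.inl rfl, rfl⟩
        rw [h] at h1
        exact b.ne_zero j (by simpa using h1)
      · rw [← hN, h]; rfl
    have hi : i ∈ R := by
      have h1 : b i ∈ Submodule.span K (b '' R) := by rw [htop]; trivial
      rw [b.mem_span_image, Basis.repr_self] at h1
      have : i ∈ ((Finsupp.single i (1 : K)).support : Set ι) := by simp
      exact h1 this
    rcases hi with hi | hi
    · rw [hi]; exact hd j
    · exact hi
  intro x _
  rw [← mem_imL]
  have hx : x = ∑ i, ∑ j, (b.coord i (x (b j))) • eu b i j := by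
    apply b.ext
    intro k
    rw [LinearMap.sum_apply]
    simp only [LinearMap.sum_apply, LinearMap.smul_apply, eu_basis, smul_ite, smul_zero,
      Finset.sum_ite_eq', Finset.mem_univ, if_true, Basis.coord_apply]
    exact (b.sum_repr (x (b k))).symm
  rw [hx]
  exact Submodule.sum_mem _ fun i _ => Submodule.sum_mem _ fun j _ =>
    Submodule.smul_mem _ _ (hall i j)

/-- Block T1: the full torus. -/
theorem phi_top (Φ : Submodule ℚ (ι → ℚ)) (one : (fun _ => (1 : ℚ)) ∈ Φ)
    (b : Basis ι K U)
    (max : ∀ (y : g) (F : ι → K), (∀ i, ⁅y, b i⁆ = F i • b i) →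
      F ∈ Submodule.span K {F' : ι → K | ∃ f ∈ Φ, F' = fun i => (f i : K)})
    (on : Pool.Agent.U4.OnSl K g U) : Φ = ⊤ := by
  classical
  by_contra hne
  obtain ⟨ℓ, hℓ, hℓΦ⟩ := Submodule.exists_dual_map_eq_bot_of_lt_top (lt_top_iff_ne_top.2 hne)
    inferInstance
  -- the functional as a vector
  let a : ι → ℚ := fun i => ℓ (Pi.single i 1)
  have ha : ∀ f : ι → ℚ, ℓ f = ∑ i, f i * a i := by
    intro f
    conv_lhs => rw [← Finset.univ_sum_single f]
    rw [map_sum]
    apply sum_congr rfl
    intro i _
    have : (Pi.single i (f i) : ι → ℚ) = f i • Pi.single i 1 := by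
      rw [← Pi.single_smul, smul_eq_mul, mul_one]
    rw [this, map_smul, smul_eq_mul]
  have hΦ : ∀ f ∈ Φ, ∑ i, f i * a i = 0 := by
    intro f hf
    rw [← ha]
    have : ℓ f ∈ Submodule.map ℓ Φ := Submodule.mem_map_of_mem hf
    rw [hℓΦ] at this
    exact this
  have hspan : ∀ F ∈ Submodule.span K {F' : ι → K | ∃ f ∈ Φ, F' = fun i => (f i : K)},
      ∑ i, F i * (a i : K) = 0 := by
    intro F hF
    induction hF using Submodule.span_induction with
    | mem F hF =>
      obtain ⟨f, hf, rfl⟩ := hF
      have := hΦ f hf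
      have h2 : ((∑ i, f i * a i : ℚ) : K) = 0 := by rw [this]; simp
      push_cast at h2
      exact h2
    | zero => simp
    | add F G _ _ hF hG =>
      simp only [Pi.add_apply, add_mul, sum_add_distrib, hF, hG, add_zero]
    | smul c F _ hF =>
      simp only [Pi.smul_apply, smul_eq_mul, mul_assoc, ← mul_sum, hF, mul_zero]
  have hone : ∑ i, (a i : K) = 0 := by
    have := hspan (fun _ => 1) (Submodule.subset_span ⟨_, one, by simp⟩)
    simpa using this
  apply hℓ
  ext i
  simp only [LinearMap.coe_comp, LinearMap.coe_single, Function.comp_apply, LinearMap.zero_comp,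
    LinearMap.zero_apply]
  show a i = 0
  have hcard : (Fintype.card ι : K) ≠ 0 := by
    have : 0 < Fintype.card ι := Fintype.card_pos_iff.2 ⟨i⟩
    exact_mod_cast this.ne'
  -- the traceless diagonal matrix
  set x : Module.End K U := eu b i i - ((Fintype.card ι : K)⁻¹) • 1 with hx
  have htr : LinearMap.trace K U x = 0 := by
    have : FiniteDimensional K U := b.finiteDimensional_of_finite
    rw [hx, map_sub, map_smul, LinearMap.trace_one, ← Module.finrank_eq_card_basis b]
    have h1 : LinearMap.trace K U (eu b i i) = 1 := by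
      rw [LinearMap.trace_eq_matrix_trace K b, Matrix.trace]
      simp only [Matrix.diag_apply, LinearMap.toMatrix_apply, eu_basis]
      rw [Finset.sum_eq_single i]
      · simp
      · intro j _ hj
        rw [if_neg (Ne.symm hj)]
        simp
      · intro h; exact absurd (mem_univ _) h
    rw [h1, smul_eq_mul, inv_mul_cancel₀, sub_self]
    rw [Module.finrank_eq_card_basis b]
    exact hcard
  obtain ⟨y, c, hy⟩ := on x htr
  have h1 : ∀ k, ⁅y, b k⁆ = ((if i = k then 1 else 0) + (c - (Fintype.card ι : K)⁻¹)) • b k := by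
    intro k
    rw [hy, hx, LinearMap.sub_apply, eu_basis, LinearMap.smul_apply, Module.End.one_apply]
    by_cases h : i = k
    · subst h
      rw [if_pos rfl, if_pos rfl, add_smul, one_smul, sub_smul]
      abel
    · rw [if_neg h, if_neg h, zero_add, sub_smul]
      abel
  have h2 := hspan _ (max y _ h1)
  simp only [add_mul, sum_add_distrib, ite_mul, one_mul, zero_mul, Finset.sum_ite_eq,
    Finset.mem_univ, if_true, ← mul_sum, hone, mul_zero, add_zero] at h2
  exact_mod_cast h2

end lie

end Pool.Agent.FT
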