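import Pool.Agent.Lib_helper99.FT.L3
import Pool.Agent.Lib_helper99.FT.T12
import Pool.Agent.Lib_helper48.OU.U27
import Pool.Agent.Lib_helper54.RM.Gcd2

/-! Block L3 (Lie algebras): psimple. -/

set_option autoImplicit false
set_option linter.unusedSectionVars false

namespace Pool.Agent.FT

open Module Finset LieModule

attribute [local instance 100] LieRing.ofAssociativeRing

variable {K : Type*} [Field K] [CharZero K] {ι : Type*} [Fintype ι] [DecidableEq ι]
  {g : Type*} [LieRing g] [LieAlgebra K g]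
  {U : Type*} [AddCommGroup U] [Module K U] [LieRingModule g U] [LieModule K g U]

theorem toMatrix_eq_diagonal (b : Basis ι K U) (x : Module.End K U) (F : ι → K) :
    LinearMap.toMatrix b b x = Matrix.diagonal F ↔ ∀ i, x (b i) = F i • b i := by
  constructor
  · intro h i
    apply b.repr.injective
    ext k
    have h1 := congrFun (congrFun h k) i
    rw [LinearMap.toMatrix_apply] at h1
    rw [h1, map_smul, Basis.repr_self, Finsupp.smul_apply, Finsupp.single_apply, smul_eq_mul]
    by_cases hk : k = i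
    · subst hk; rw [Matrix.diagonal_apply_eq]; simp
    · rw [Matrix.diagonal_apply_ne _ hk, if_neg (Ne.symm hk), mul_zero]
  · intro h
    ext k i
    rw [LinearMap.toMatrix_apply, h i, map_smul, Basis.repr_self, Finsupp.smul_apply,
      Finsupp.single_apply, smul_eq_mul]
    by_cases hk : k = i
    · subst hk; rw [Matrix.diagonal_apply_eq]; simp
    · rw [Matrix.diagonal_apply_ne _ hk, if_neg (Ne.symm hk), mul_zero]

/-- The matrices of the image plus scalars. -/
noncomputable def matL (b : Basis ι K U) : Submodule K (Matrix ι ι K) :=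
  (imL K g U).map (LinearMap.toMatrix b b).toLinearMap

theorem mem_matL (b : Basis ι K U) (x : Matrix ι ι K) :
    x ∈ matL (g := g) b ↔ ∃ x0 ∈ imL K g U, LinearMap.toMatrix b b x0 = x := Iff.rfl

theorem matL_mem (Φ : Submodule ℚ (ι → ℚ)) (b : Basis ι K U)
    (mem : ∀ f ∈ Φ, ∃ (y : g) (c : K), ∀ i, ⁅y, b i⁆ = ((f i : K) + c) • b i) :
    ∀ f ∈ Φ, Matrix.diagonal (fun i => (f i : K)) ∈ matL (g := g) b := by
  intro f hf
  obtain ⟨y, c, h⟩ := mem f hf
  refine ⟨toEnd K g U y - c • 1, ⟨y, c, fun v => ?_⟩, ?_⟩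
  · simp
  · change LinearMap.toMatrix b b (toEnd K g U y - c • 1) = _
    rw [toMatrix_eq_diagonal]
    intro i
    rw [LinearMap.sub_apply, toEnd_apply_apply, h, LinearMap.smul_apply, Module.End.one_apply,
      add_smul, add_sub_cancel_right]

theorem matL_max (Φ : Submodule ℚ (ι → ℚ)) (one : (fun _ => (1 : ℚ)) ∈ Φ) (b : Basis ι K U)
    (max : ∀ (y : g) (F : ι → K), (∀ i, ⁅y, b i⁆ = F i • b i) →
      F ∈ Submodule.span K {F' : ι → K | ∃ f ∈ Φ, F' = fun i => (f i : K)}) :
    ∀ F : ι → K, Matrix.diagonal F ∈ matL (g := g) b →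
      F ∈ Submodule.span K {F' : ι → K | ∃ f ∈ Φ, F' = fun i => (f i : K)} := by
  rintro F ⟨x0, ⟨y, c, h⟩, hx0⟩
  change LinearMap.toMatrix b b x0 = Matrix.diagonal F at hx0
  rw [toMatrix_eq_diagonal] at hx0
  have h1 := max y (fun i => F i + c) (fun i => by rw [h, hx0, add_smul])
  have h2 : (fun _ : ι => (1 : K)) ∈
      Submodule.span K {F' : ι → K | ∃ f ∈ Φ, F' = fun i => (f i : K)} :=
    Submodule.subset_span ⟨_, one, by simp⟩
  have h3 := Submodule.sub_mem _ h1 (Submodule.smul_mem _ c h2)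
  have h4 : (fun i => F i + c) - c • (fun _ : ι => (1 : K)) = F := by
    ext i
    simp
  rwa [h4] at h3

theorem matL_irr [LieModule.IsIrreducible K g U] (b : Basis ι K U) :
    ∀ W : Submodule K (ι → K), (∀ x ∈ matL (g := g) b, ∀ v ∈ W, x.mulVec v ∈ W) →
      W = ⊥ ∨ W = ⊤ := by
  intro W hW
  let N : LieSubmodule K g U :=
    { W.comap b.equivFun.toLinearMap with
      lie_mem := by
        intro y m hm
        change b.equivFun ⁅y, m⁆ ∈ W
        change b.equivFun m ∈ W at hm
        have h1 := hW (LinearMap.toMatrix b b (toEnd K g U y))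
          ⟨toEnd K g U y, ⟨y, 0, fun v => by simp⟩, rfl⟩ _ hm
        have h2 : (LinearMap.toMatrix b b (toEnd K g U y)).mulVec (b.equivFun m) =
            b.equivFun ⁅y, m⁆ := LinearMap.toMatrix_mulVec_repr b b (toEnd K g U y) m
        rwa [h2] at h1 }
  have hN : ∀ m, m ∈ N ↔ b.equivFun m ∈ W := fun m => Iff.rfl
  rcases eq_bot_or_eq_top N with h | h
  · left
    rw [eq_bot_iff]
    intro v hv
    have h1 : b.equivFun.symm v ∈ N := by rw [hN, LinearEquiv.apply_symm_apply]; exact hv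
    rw [h, LieSubmodule.mem_bot] at h1
    rw [Submodule.mem_bot]
    have h2 := congrArg b.equivFun h1
    rwa [LinearEquiv.apply_symm_apply, map_zero] at h2
  · right
    rw [eq_top_iff]
    intro v _
    have h1 : b.equivFun.symm v ∈ N := by rw [h]; exact LieSubmodule.mem_top _
    rwa [hN, LinearEquiv.apply_symm_apply] at h1

/-- Block L3. -/
theorem psimple [IsAlgClosed K] [LieModule.IsIrreducible K g U]
    (Φ : Submodule ℚ (ι → ℚ)) (one : (fun _ => (1 : ℚ)) ∈ Φ) (sep : Sep Φ) (ind : Indec Φ)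
    (b : Basis ι K U)
    (mem : ∀ f ∈ Φ, ∃ (y : g) (c : K), ∀ i, ⁅y, b i⁆ = ((f i : K) + c) • b i)
    (max : ∀ (y : g) (F : ι → K), (∀ i, ⁅y, b i⁆ = F i • b i) →
      F ∈ Submodule.span K {F' : ι → K | ∃ f ∈ Φ, F' = fun i => (f i : K)}) :
    Pool.Agent.OU.PSimple K g U := by
  have hfd : FiniteDimensional K U := b.finiteDimensional_of_finite
  obtain ⟨htr, hfa, hirr, hz, hI⟩ := Pool.Agent.GS.facts (K := K) (g := g) U
  intro I
  rcases hI I with h | h | ⟨J, C, hJ, hC, hJC, hJC', hc⟩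
  · exact Or.inl h
  · exact Or.inr h
  exfalso
  let L : LieSubalgebra K (Module.End K U) := (Pool.Agent.GS.phi (g := g) U).range
  obtain ⟨κ, hκ⟩ : ∃ κ : g → K, ∀ z (v : U), Pool.Agent.GS.phi (K := K) (g := g) U z v =
      ⁅z, v⁆ - κ z • v := ⟨_, fun z v => rfl⟩
  -- matrices of an ideal
  let mt : LieIdeal K L → Submodule K (Matrix ι ι K) := fun Q =>
    (Q : Submodule K L).map ((LinearMap.toMatrix b b).toLinearMap ∘ₗ L.toSubmodule.subtype)
  have hmt : ∀ (Q : LieIdeal K L) (x : Matrix ι ι K), x ∈ mt Q ↔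
      ∃ q : L, q ∈ Q ∧ LinearMap.toMatrix b b (q : Module.End K U) = x := fun Q x => Iff.rfl
  have hbr : ∀ (Q : LieIdeal K L), ∀ x ∈ matL (g := g) b, ∀ y ∈ mt Q, x * y - y * x ∈ mt Q := by
    rintro Q _ ⟨x0, ⟨z, c, hz'⟩, rfl⟩ _ ⟨q, hq, rfl⟩
    let p : L := ⟨Pool.Agent.GS.phi (K := K) (g := g) U z, ⟨z, rfl⟩⟩
    rw [hmt]
    refine ⟨⁅p, q⁆, lie_mem_right K L Q p q hq, ?_⟩
    have h1 : x0 = Pool.Agent.GS.phi (K := K) (g := g) U z + (κ z - c) • (1 : Module.End K U) := by
      ext v
      have h2 := hz' v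
      rw [LinearMap.add_apply, hκ, LinearMap.smul_apply, Module.End.one_apply, h2, sub_smul]
      abel
    change LinearMap.toMatrix b b ((⁅p, q⁆ : L) : Module.End K U) =
      LinearMap.toMatrix b b x0 * LinearMap.toMatrix b b (q : Module.End K U) -
      LinearMap.toMatrix b b (q : Module.End K U) * LinearMap.toMatrix b b x0
    rw [← LinearMap.toMatrix_mul, ← LinearMap.toMatrix_mul, ← map_sub]
    congr 1
    rw [h1, LieSubalgebra.coe_bracket, Ring.lie_def]
    change Pool.Agent.GS.phi (K := K) (g := g) U z * (q : Module.End K U) -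
      (q : Module.End K U) * Pool.Agent.GS.phi (K := K) (g := g) U z = _
    rw [add_mul, mul_add, smul_mul_assoc, mul_smul_comm, one_mul, mul_one]
    abel
  have htrace : ∀ (Q : LieIdeal K L), ∀ x ∈ mt Q, x.trace = 0 := by
    rintro Q _ ⟨q, hq, rfl⟩
    have h1 := htr q
    rw [LinearMap.trace_eq_matrix_trace K b] at h1
    exact h1
  have hle : ∀ (Q : LieIdeal K L), mt Q ≤ matL (g := g) b := by
    rintro Q _ ⟨q, hq, rfl⟩
    obtain ⟨z, hz'⟩ := q.2
    refine ⟨(q : Module.End K U), ⟨z, κ z, fun v => ?_⟩, rfl⟩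
    rw [← hz']
    have := hκ z v
    change _ = Pool.Agent.GS.phi (K := K) (g := g) U z v + _
    rw [this, sub_add_cancel]
  have hbot : ∀ (Q : LieIdeal K L), mt Q = ⊥ → Q = ⊥ := by
    intro Q hQ
    rw [LieSubmodule.eq_bot_iff]
    intro q hq
    have h1 : LinearMap.toMatrix b b (q : Module.End K U) ∈ mt Q := ⟨q, hq, rfl⟩
    rw [hQ, Submodule.mem_bot] at h1
    apply Subtype.ext
    exact (LinearMap.toMatrix b b).injective (by rw [h1, ZeroMemClass.coe_zero, map_zero])
  rcases simple_mat Φ sep ind (matL (g := g) b) (matL_mem Φ b mem) (matL_max Φ one b max)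
    (matL_irr b) (mt J) (mt C) (hbr J) (hbr C) (htrace J) (htrace C) (by
      rintro _ ⟨p, hp, rfl⟩ _ ⟨q, hq, rfl⟩
      change LinearMap.toMatrix b b (p : Module.End K U) * LinearMap.toMatrix b b (q : Module.End K U)
        = LinearMap.toMatrix b b (q : Module.End K U) * LinearMap.toMatrix b b (p : Module.End K U)
      rw [← LinearMap.toMatrix_mul, ← LinearMap.toMatrix_mul]
      congr 1
      have h1 := congrArg (Subtype.val) (hc p hp q hq)
      rw [LieSubalgebra.coe_bracket, Ring.lie_def] at h1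
      exact sub_eq_zero.1 h1) (hle J) (hle C)
    (by
      refine ⟨1, ⟨0, -1, fun v => by simp⟩, ?_⟩
      exact LinearMap.toMatrix_one b) (by
      rintro _ ⟨x0, ⟨z, c, hz'⟩, rfl⟩
      let p : L := ⟨Pool.Agent.GS.phi (K := K) (g := g) U z, ⟨z, rfl⟩⟩
      have hp : p ∈ J ⊔ C := by rw [hJC]; exact LieSubmodule.mem_top _
      rw [LieSubmodule.mem_sup] at hp
      obtain ⟨j, hj, r, hr, hjr⟩ := hp
      refine ⟨κ z - c, _, ⟨j, hj, rfl⟩, _, ⟨r, hr, rfl⟩, ?_⟩
      change LinearMap.toMatrix b b x0 = (κ z - c) • (1 : Matrix ι ι K) +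
        LinearMap.toMatrix b b (j : Module.End K U) + LinearMap.toMatrix b b (r : Module.End K U)
      have h1 : x0 = Pool.Agent.GS.phi (K := K) (g := g) U z + (κ z - c) • (1 : Module.End K U) := by
        ext v
        have h2 := hz' v
        rw [LinearMap.add_apply, hκ, LinearMap.smul_apply, Module.End.one_apply, h2, sub_smul]
        abel
      have h2 : (j : Module.End K U) + (r : Module.End K U) =
          Pool.Agent.GS.phi (K := K) (g := g) U z := congrArg Subtype.val hjr
      rw [h1, ← h2, map_add, map_add, map_smul, LinearMap.toMatrix_one]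
      abel) with h | h
  · exact hJ (hbot J h)
  · exact hC (hbot C h)

end Pool.Agent.FT
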