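import Pool.Agent.Lib_helper48.FT.Defs

/-! Block L3 (matrices). -/

set_option autoImplicit false
set_option linter.unusedSectionVars false

namespace Pool.Agent.FT

open Module Finset

variable {K : Type*} [Field K] [CharZero K] {ι : Type*} [Fintype ι] [DecidableEq ι]

/-- A rational function in the K-span is in the Q-space. -/
theorem descent (Φ : Submodule ℚ (ι → ℚ)) (f : ι → ℚ)
    (hf : (fun i => (f i : K)) ∈
      Submodule.span K {F' : ι → K | ∃ f ∈ Φ, F' = fun i => (f i : K)}) : f ∈ Φ := by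
  by_contra hne
  obtain ⟨ℓ, hℓ, hℓΦ⟩ := Submodule.exists_le_ker_of_notMem hne
  let a : ι → ℚ := fun i => ℓ (Pi.single i 1)
  have ha : ∀ f : ι → ℚ, ℓ f = ∑ i, f i * a i := by
    intro f
    conv_lhs => rw [← Finset.univ_sum_single f]
    rw [map_sum]
    apply sum_congr rfl
    intro i _
    have : (Pi.single i (f i) : ι → ℚ) = f i • Pi.single i 1 := by
      rw [← Pi.single_smul, smul_eq_mul, mul_one]
    rw [this, map_smul, smul_eq_mul]
  have hspan : ∀ F ∈ Submodule.span K {F' : ι → K | ∃ f ∈ Φ, F' = fun i => (f i : K)},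
      ∑ i, F i * (a i : K) = 0 := by
    intro F hF
    induction hF using Submodule.span_induction with
    | mem F hF =>
      obtain ⟨f, hf, rfl⟩ := hF
      have := hℓΦ hf
      rw [LinearMap.mem_ker, ha] at this
      have h2 : ((∑ i, f i * a i : ℚ) : K) = 0 := by rw [this]; simp
      push_cast at h2
      exact h2
    | zero => simp
    | add F G _ _ hF hG =>
      simp only [Pi.add_apply, add_mul, sum_add_distrib, hF, hG, add_zero]
    | smul c F _ hF =>
      simp only [Pi.smul_apply, smul_eq_mul, mul_assoc, ← mul_sum, hF, mul_zero]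
  have h1 := hspan _ hf
  apply hℓ
  rw [ha]
  exact_mod_cast h1

theorem diag_br (f : ι → K) (y : Matrix ι ι K) (k l : ι) :
    (Matrix.diagonal f * y - y * Matrix.diagonal f) k l = (f k - f l) * y k l := by
  rw [Matrix.sub_apply, Matrix.diagonal_mul, Matrix.mul_diagonal]
  ring

/-- The diagonal part of an element of a space stable under the torus. -/
theorem diagPart (Φ : Submodule ℚ (ι → ℚ)) (sep : Sep Φ) (S : Submodule K (Matrix ι ι K))
    (hS : ∀ f ∈ Φ, ∀ y ∈ S, Matrix.diagonal (fun i => (f i : K)) * y -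
      y * Matrix.diagonal (fun i => (f i : K)) ∈ S) (y : Matrix ι ι K) (hy : y ∈ S) :
    Matrix.diagonal (fun i => y i i) ∈ S := by
  have hex : ∀ p : ι × ι, ∃ f ∈ Φ, p.1 ≠ p.2 → f p.1 ≠ f p.2 := by
    intro p
    by_contra h
    push Not at h
    have h1 := (h 0 Φ.zero_mem).1
    exact h1 (sep _ _ fun f hf => (h f hf).2)
  choose F hF hFne using hex
  have key : ∀ T : Finset (ι × ι), ∃ y' ∈ S, ∀ k l, y' k l =
      y k l * ∏ p ∈ T, (1 - ((F p k : K) - F p l) / ((F p p.1 : K) - F p p.2)) := by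
    intro T
    induction T using Finset.induction_on with
    | empty => exact ⟨y, hy, fun k l => by simp⟩
    | insert p T hp ih =>
      obtain ⟨y', hy', h⟩ := ih
      refine ⟨y' - (((F p p.1 : K) - F p p.2)⁻¹) • (Matrix.diagonal (fun i => (F p i : K)) * y' -
        y' * Matrix.diagonal (fun i => (F p i : K))), S.sub_mem hy' (S.smul_mem _ (hS _ (hF p) y' hy')),
        fun k l => ?_⟩
      rw [prod_insert hp, Matrix.sub_apply, Matrix.smul_apply, diag_br, smul_eq_mul, h k l,
        div_eq_mul_inv]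
      ring
  obtain ⟨y', hy', h⟩ := key (univ.filter fun p => p.1 ≠ p.2)
  have : Matrix.diagonal (fun i => y i i) = y' := by
    ext k l
    rw [h k l]
    by_cases hkl : k = l
    · subst hkl
      rw [Matrix.diagonal_apply_eq]
      simp
    · rw [Matrix.diagonal_apply_ne _ hkl]
      symm
      apply mul_eq_zero_of_right
      apply prod_eq_zero (i := (k, l))
      · simp [hkl]
      · have h1 : (F (k, l) k : K) - F (k, l) l ≠ 0 := by
          rw [sub_ne_zero]
          exact_mod_cast hFne (k, l) hkl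
        rw [div_self h1, sub_self]
  rw [this]
  exact hy'

/-- The elements of the second space see the same value of the first coordinates. -/
theorem exists_op (L J C : Submodule K (Matrix ι ι K))
    (irr : ∀ W : Submodule K (ι → K), (∀ x ∈ L, ∀ v ∈ W, x.mulVec v ∈ W) → W = ⊥ ∨ W = ⊤)
    (com : ∀ x ∈ J, ∀ y ∈ C, x * y = y * x)
    (dec : ∀ x ∈ L, ∃ c : K, ∃ y ∈ J, ∃ z ∈ C, x = c • 1 + y + z) (i j : ι) :
    ∃ k, (∀ u : ι → K, Matrix.diagonal u ∈ J → u k = u i) ∧
      (∀ v : ι → K, Matrix.diagonal v ∈ C → v k = v j) := by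
  classical
  let M : Submodule K (ι → K) :=
    sInf {W | (∀ x ∈ C, ∀ v ∈ W, x.mulVec v ∈ W) ∧ (Pi.single i 1 : ι → K) ∈ W}
  have hMC : ∀ x ∈ C, ∀ v ∈ M, x.mulVec v ∈ M := by
    intro x hx v hv
    rw [Submodule.mem_sInf] at hv ⊢
    exact fun W hW => hW.1 x hx v (hv W hW)
  have hMi : (Pi.single i 1 : ι → K) ∈ M := by
    rw [Submodule.mem_sInf]
    exact fun W hW => hW.2
  have hMu : ∀ u : ι → K, Matrix.diagonal u ∈ J → ∀ m ∈ M, ∀ k, m k ≠ 0 → u k = u i := by
    intro u hu m hm k hk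
    let W : Submodule K (ι → K) :=
      LinearMap.ker ((Matrix.diagonal u).mulVecLin - (u i) • LinearMap.id)
    have hWmem : ∀ w, w ∈ W ↔ (Matrix.diagonal u).mulVec w = u i • w := by
      intro w
      rw [LinearMap.mem_ker, LinearMap.sub_apply, sub_eq_zero]
      rfl
    have hMW : M ≤ W := by
      apply sInf_le
      refine ⟨fun x hx v hv => ?_, ?_⟩
      · rw [hWmem] at hv ⊢
        rw [Matrix.mulVec_mulVec, com _ hu x hx, ← Matrix.mulVec_mulVec, hv, Matrix.mulVec_smul]
      · rw [hWmem]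
        ext l
        rw [Matrix.mulVec_diagonal, Pi.smul_apply, smul_eq_mul]
        by_cases hl : l = i
        · subst hl; rfl
        · rw [Pi.single_eq_of_ne hl, mul_zero, mul_zero]
    have h1 := (hWmem m).1 (hMW hm)
    have h2 := congrFun h1 k
    rw [Matrix.mulVec_diagonal, Pi.smul_apply, smul_eq_mul] at h2
    exact mul_right_cancel₀ hk h2
  let N : Submodule K (ι → K) := sInf {W | (∀ x ∈ J, ∀ v ∈ W, x.mulVec v ∈ W) ∧ M ≤ W}
  have hNJ : ∀ x ∈ J, ∀ v ∈ N, x.mulVec v ∈ N := by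
    intro x hx v hv
    rw [Submodule.mem_sInf] at hv ⊢
    exact fun W hW => hW.1 x hx v (hv W hW)
  have hMN : M ≤ N := le_sInf fun W hW => hW.2
  have hNC : ∀ x ∈ C, ∀ v ∈ N, x.mulVec v ∈ N := by
    intro x hx
    have : N ≤ N ⊓ N.comap x.mulVecLin := by
      apply sInf_le
      refine ⟨fun y hy v hv => ⟨hNJ y hy v hv.1, ?_⟩, fun v hv => ⟨hMN hv, ?_⟩⟩
      · change x.mulVec (y.mulVec v) ∈ N
        rw [Matrix.mulVec_mulVec, ← com y hy x hx, ← Matrix.mulVec_mulVec]
        exact hNJ y hy _ hv.2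
      · exact hMN (hMC x hx v hv)
    exact fun v hv => (this hv).2
  have hNtop : N = ⊤ := by
    rcases irr N (fun x hx v hv => by
      obtain ⟨c, y, hy, z, hz, rfl⟩ := dec x hx
      rw [Matrix.add_mulVec, Matrix.add_mulVec, Matrix.smul_mulVec, Matrix.one_mulVec]
      exact N.add_mem (N.add_mem (N.smul_mem c hv) (hNJ y hy v hv)) (hNC z hz v hv)) with h | h
    · exfalso
      have h1 : (Pi.single i 1 : ι → K) ∈ N := hMN hMi
      rw [h, Submodule.mem_bot] at h1
      have := congrFun h1 i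
      rw [Pi.single_eq_same] at this
      exact one_ne_zero this
    · exact h
  let Q : Set ι := {l | ∃ k, (∃ m ∈ M, m k ≠ 0) ∧
    ∀ v : ι → K, Matrix.diagonal v ∈ C → v l = v k}
  let N' : Submodule K (ι → K) :=
    { carrier := {w | ∀ l, l ∉ Q → w l = 0}
      zero_mem' := fun l _ => rfl
      add_mem' := fun {a b} ha hb l hl => by rw [Pi.add_apply, ha l hl, hb l hl, add_zero]
      smul_mem' := fun c a ha l hl => by rw [Pi.smul_apply, ha l hl, smul_zero] }
  have hNN' : N ≤ N' := by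
    apply sInf_le
    refine ⟨fun y hy w hw l hl => ?_, fun m hm l hl => ?_⟩
    · change ∑ k, y l k * w k = 0
      apply sum_eq_zero
      intro k _
      by_cases hk : k ∈ Q
      · by_cases hylk : y l k = 0
        · rw [hylk, zero_mul]
        exfalso
        apply hl
        obtain ⟨k', hk', hk''⟩ := hk
        refine ⟨k', hk', fun v hv => ?_⟩
        rw [← hk'' v hv]
        have h1 := congrFun (congrFun (com y hy _ hv) l) k
        rw [Matrix.mul_diagonal, Matrix.diagonal_mul, mul_comm] at h1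
        exact (mul_right_cancel₀ hylk h1).symm
      · rw [hw k hk, mul_zero]
    · by_contra h
      exact hl ⟨l, ⟨m, hm, h⟩, fun v _ => rfl⟩
  have hj : j ∈ Q := by
    by_contra h
    have h1 : (Pi.single j 1 : ι → K) ∈ N := by rw [hNtop]; trivial
    have h2 := hNN' h1 j h
    rw [Pi.single_eq_same] at h2
    exact one_ne_zero h2
  obtain ⟨k, ⟨m, hm, hmk⟩, hk⟩ := hj
  exact ⟨k, fun u hu => hMu u hu m hm k hmk, fun v hv => (hk v hv).symm⟩

/-- If every diagonal element of one side is zero, this side is zero. -/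
theorem side_bot (Φ : Submodule ℚ (ι → ℚ)) (sep : Sep Φ)
    (J C : Submodule K (Matrix ι ι K))
    (hC : ∀ f ∈ Φ, ∀ y ∈ C, Matrix.diagonal (fun i => (f i : K)) * y -
      y * Matrix.diagonal (fun i => (f i : K)) ∈ C)
    (tC : ∀ x ∈ C, x.trace = 0)
    (com : ∀ x ∈ J, ∀ y ∈ C, x * y = y * x)
    (hf : ∀ f ∈ Φ, ∃ (c : K) (u v : ι → K), Matrix.diagonal u ∈ J ∧ Matrix.diagonal v ∈ C ∧
      ∀ i, (f i : K) = c + u i + v i)
    (hconst : ∀ v : ι → K, Matrix.diagonal v ∈ C → ∀ i j, v i = v j) : C = ⊥ := by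
  have hv0 : ∀ v : ι → K, Matrix.diagonal v ∈ C → v = 0 := by
    intro v hv
    ext i
    have h1 := tC _ hv
    rw [Matrix.trace_diagonal] at h1
    have h2 : ∑ j, v j = (Fintype.card ι : K) * v i := by
      rw [sum_congr rfl fun j _ => hconst v hv j i, sum_const, card_univ, nsmul_eq_mul]
    rw [h2] at h1
    have hcard : (Fintype.card ι : K) ≠ 0 := by
      have : 0 < Fintype.card ι := Fintype.card_pos_iff.2 ⟨i⟩
      exact_mod_cast this.ne'
    exact (mul_eq_zero.1 h1).resolve_left hcard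
  rw [eq_bot_iff]
  intro y hy
  rw [Submodule.mem_bot]
  ext k l
  rw [Matrix.zero_apply]
  by_cases hkl : k = l
  · subst hkl
    exact congrFun (hv0 _ (diagPart Φ sep C hC y hy)) k
  · by_contra hne
    apply hkl
    apply sep
    intro f hfΦ
    obtain ⟨c, u, v, hu, hv, h⟩ := hf f hfΦ
    have h1 := congrFun (congrFun (com _ hu y hy) k) l
    rw [Matrix.mul_diagonal, Matrix.diagonal_mul, mul_comm] at h1
    have h2 := mul_left_cancel₀ hne h1
    have h3 : (f k : K) = f l := by
      rw [h k, h l, h2, hv0 v hv]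
      rfl
    exact_mod_cast h3

/-- Block L3 (matrices). -/
theorem simple_mat (Φ : Submodule ℚ (ι → ℚ)) (sep : Sep Φ) (ind : Indec Φ)
    (L : Submodule K (Matrix ι ι K))
    (mem : ∀ f ∈ Φ, Matrix.diagonal (fun i => (f i : K)) ∈ L)
    (max : ∀ F : ι → K, Matrix.diagonal F ∈ L →
      F ∈ Submodule.span K {F' : ι → K | ∃ f ∈ Φ, F' = fun i => (f i : K)})
    (irr : ∀ W : Submodule K (ι → K), (∀ x ∈ L, ∀ v ∈ W, x.mulVec v ∈ W) → W = ⊥ ∨ W = ⊤)
    (J C : Submodule K (Matrix ι ι K))
    (hJ : ∀ x ∈ L, ∀ y ∈ J, x * y - y * x ∈ J) (hC : ∀ x ∈ L, ∀ y ∈ C, x * y - y * x ∈ C)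
    (tJ : ∀ x ∈ J, x.trace = 0) (tC : ∀ x ∈ C, x.trace = 0)
    (com : ∀ x ∈ J, ∀ y ∈ C, x * y = y * x)
    (JL : J ≤ L) (CL : C ≤ L) (one : (1 : Matrix ι ι K) ∈ L)
    (dec : ∀ x ∈ L, ∃ c : K, ∃ y ∈ J, ∃ z ∈ C, x = c • 1 + y + z) : J = ⊥ ∨ C = ⊥ := by
  have hJ' : ∀ f ∈ Φ, ∀ y ∈ J, Matrix.diagonal (fun i => (f i : K)) * y -
      y * Matrix.diagonal (fun i => (f i : K)) ∈ J := fun f hf y hy => hJ _ (mem f hf) y hy
  have hC' : ∀ f ∈ Φ, ∀ y ∈ C, Matrix.diagonal (fun i => (f i : K)) * y -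
      y * Matrix.diagonal (fun i => (f i : K)) ∈ C := fun f hf y hy => hC _ (mem f hf) y hy
  have hf : ∀ f ∈ Φ, ∃ (c : K) (u v : ι → K), Matrix.diagonal u ∈ J ∧ Matrix.diagonal v ∈ C ∧
      ∀ i, (f i : K) = c + u i + v i := by
    intro f hfΦ
    obtain ⟨c, y, hy, z, hz, h⟩ := dec _ (mem f hfΦ)
    refine ⟨c, fun i => y i i, fun i => z i i, diagPart Φ sep J hJ' y hy,
      diagPart Φ sep C hC' z hz, fun i => ?_⟩
    have h1 := congrFun (congrFun h i) i
    rw [Matrix.diagonal_apply_eq, Matrix.add_apply, Matrix.add_apply, Matrix.smul_apply,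
      Matrix.one_apply_eq, smul_eq_mul, mul_one] at h1
    exact h1
  choose op hop using exists_op L J C irr com dec
  have hfop : ∀ f ∈ Φ, ∃ (c : K) (u v : ι → K), Matrix.diagonal u ∈ J ∧ Matrix.diagonal v ∈ C ∧
      (∀ i, (f i : K) = c + u i + v i) ∧ ∀ i j, (f (op i j) : K) = c + u i + v j := by
    intro f hfΦ
    obtain ⟨c, u, v, hu, hv, h⟩ := hf f hfΦ
    exact ⟨c, u, v, hu, hv, h, fun i j => by rw [h, (hop i j).1 u hu, (hop i j).2 v hv]⟩
  have band : Band Φ op := by
    refine ⟨?_, ?_, ?_, ?_, ?_⟩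
    · intro k f hfΦ
      obtain ⟨c, u, v, hu, hv, -, h⟩ := hfop f hfΦ
      apply descent (K := K)
      apply max
      have : Matrix.diagonal (fun i => ((f (op i k) : ℚ) : K)) =
          (c + v k) • (1 : Matrix ι ι K) + Matrix.diagonal u := by
        ext a b
        by_cases hab : a = b
        · subst hab
          rw [Matrix.diagonal_apply_eq, Matrix.add_apply, Matrix.smul_apply, Matrix.one_apply_eq,
            Matrix.diagonal_apply_eq, h, smul_eq_mul]
          ring
        · rw [Matrix.diagonal_apply_ne _ hab, Matrix.add_apply, Matrix.smul_apply,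
            Matrix.one_apply_ne hab, Matrix.diagonal_apply_ne _ hab, smul_zero, add_zero]
      rw [this]
      exact L.add_mem (L.smul_mem _ one) (JL hu)
    · intro f hfΦ i j k
      obtain ⟨c, u, v, hu, hv, h, h'⟩ := hfop f hfΦ
      have : ((f (op i j) - f j : ℚ) : K) = ((f (op i k) - f (op j k) : ℚ) : K) := by
        push_cast
        rw [h', h', h', h]
        ring
      exact_mod_cast this
    · intro i
      apply sep
      intro f hfΦ
      obtain ⟨c, u, v, hu, hv, h, h'⟩ := hfop f hfΦ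
      have : (f (op i i) : K) = f i := by rw [h', h]
      exact_mod_cast this
    · intro i j k
      apply sep
      intro f hfΦ
      obtain ⟨c, u, v, hu, hv, h, h'⟩ := hfop f hfΦ
      have : (f (op (op i j) k) : K) = f (op i k) := by
        rw [h', h', (hop i j).1 u hu]
      exact_mod_cast this
    · intro i j k
      apply sep
      intro f hfΦ
      obtain ⟨c, u, v, hu, hv, h, h'⟩ := hfop f hfΦ
      have : (f (op i (op j k)) : K) = f (op i k) := by
        rw [h', h', (hop j k).2 v hv]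
      exact_mod_cast this
  rcases ind op band with h | h
  · right
    refine side_bot Φ sep J C hC' tC com hf fun v hv i j => ?_
    rw [← (hop i j).2 v hv, h i j]
  · left
    refine side_bot Φ sep C J hJ' tJ (fun x hx y hy => (com y hy x hx).symm) ?_ fun u hu i j => ?_
    · intro f hfΦ
      obtain ⟨c, u, v, hu, hv, h⟩ := hf f hfΦ
      exact ⟨c, v, u, hv, hu, fun i => by rw [h]; ring⟩
    · rw [← (hop i j).1 u hu, h i j]

end Pool.Agent.FT
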